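import Pool.Agent.Y198.EX.Stm

/-!
# Job EX-B: approximate splittings pass to the power series ring (helper909)
-/

set_option autoImplicit false

namespace Pool.Agent.Y909.EX

open Pool.Agent.H42R3.FS PowerSeries

section gen

variable {p : ℕ} [hp : Fact p.Prime] {R : Type} [CommRing R] [CharP R p]

/-- the coefficients of a `p`-th power -/
lemma coeff_pow_prime (f : PowerSeries R) (n : ℕ) :
    coeff n (f ^ p) = if p ∣ n then (coeff (n / p) f) ^ p else 0 := by
  have h1 : PowerSeries.map (frobenius R p) (PowerSeries.expand p hp.out.ne_zero f) = f ^ p :=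
    MvPowerSeries.map_frobenius_expand p hp.out.ne_zero
  rw [← h1, coeff_map, PowerSeries.coeff_expand]
  split_ifs with h
  · rfl
  · simp

/-- a `p⁻¹`-linear map with values in an algebra, applied to the coefficients -/
lemma semilin {Q : Type} [CommRing Q] [Algebra R Q] (T : R → Q)
    (hadd : ∀ x y, T (x + y) = T x + T y) (hpow : ∀ x y, T (x ^ p * y) = algebraMap R Q x * T y)
    (g f : PowerSeries R) (i : ℕ) :
    T (coeff (p * i) (g ^ p * f)) =
      ∑ x ∈ Finset.HasAntidiagonal.antidiagonal i, algebraMap R Q (coeff x.1 g) * T (coeff (p * x.2) f) := by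
  have hp0 : 0 < p := hp.out.pos
  have hz : T 0 = 0 := by
    have := hadd 0 0
    simpa using this
  have hsum : ∀ {ι : Type} (s : Finset ι) (f : ι → R), T (∑ i ∈ s, f i) = ∑ i ∈ s, T (f i) := by
    classical
    intro ι s f
    induction s using Finset.induction_on with
    | empty => simp [hz]
    | insert a s ha ih => rw [Finset.sum_insert ha, hadd, ih, Finset.sum_insert ha]
  rw [coeff_mul, hsum]
  symm
  apply Finset.sum_of_injOn (fun x : ℕ × ℕ => (p * x.1, p * x.2))
  · rintro ⟨a, b⟩ _ ⟨c, d⟩ _ hh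
    simp only [Prod.mk.injEq] at hh
    exact Prod.ext (Nat.eq_of_mul_eq_mul_left hp0 hh.1) (Nat.eq_of_mul_eq_mul_left hp0 hh.2)
  · rintro ⟨a, b⟩ hab
    simp only [Finset.mem_coe, Finset.HasAntidiagonal.mem_antidiagonal] at hab ⊢
    rw [← hab, mul_add]
  · rintro ⟨a, b⟩ hab hn
    simp only [Finset.HasAntidiagonal.mem_antidiagonal] at hab
    rw [coeff_pow_prime]
    dsimp only
    split_ifs with hd
    · exfalso
      apply hn
      obtain ⟨a', rfl⟩ := hd
      have hb : p ∣ b := by
        have : p ∣ p * a' + b := ⟨i, hab⟩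
        exact (Nat.dvd_add_right ⟨a', rfl⟩).1 this
      obtain ⟨b', rfl⟩ := hb
      refine ⟨(a', b'), ?_, rfl⟩
      simp only [Finset.mem_coe, Finset.HasAntidiagonal.mem_antidiagonal]
      apply Nat.eq_of_mul_eq_mul_left hp0
      rw [mul_add, hab]
    · rw [zero_mul, hz]
  · rintro ⟨a, b⟩ _
    dsimp only
    rw [coeff_pow_prime, if_pos ⟨a, rfl⟩, Nat.mul_div_cancel_left _ hp0, hpow]

end gen

section max

variable {R : Type} [CommRing R] [IsLocalRing R]

lemma C_mem_max {a : R} (ha : a ∈ IsLocalRing.maximalIdeal R) :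
    (C a : PowerSeries R) ∈ IsLocalRing.maximalIdeal (PowerSeries R) := by
  rw [IsLocalRing.mem_maximalIdeal, mem_nonunits_iff] at ha ⊢
  rw [PowerSeries.isUnit_iff_constantCoeff, PowerSeries.constantCoeff_C]
  exact ha

lemma X_mem_max : (X : PowerSeries R) ∈ IsLocalRing.maximalIdeal (PowerSeries R) := by
  rw [IsLocalRing.mem_maximalIdeal, mem_nonunits_iff, PowerSeries.isUnit_iff_constantCoeff,
    PowerSeries.constantCoeff_X]
  exact not_isUnit_zero

lemma C_mem_pow {n : ℕ} {a : R} (ha : a ∈ (IsLocalRing.maximalIdeal R) ^ n) :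
    (C a : PowerSeries R) ∈ (IsLocalRing.maximalIdeal (PowerSeries R)) ^ n := by
  have h1 : Ideal.map (C : R →+* PowerSeries R) (IsLocalRing.maximalIdeal R) ≤
      IsLocalRing.maximalIdeal (PowerSeries R) := by
    rw [Ideal.map_le_iff_le_comap]
    intro r hr
    exact C_mem_max hr
  have h2 := Ideal.mem_map_of_mem (C : R →+* PowerSeries R) ha
  rw [Ideal.map_pow] at h2
  exact Ideal.pow_right_mono h1 n h2

/-- a power series whose first `n` coefficients lie in the `n`-th power of the maximal ideal -/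
lemma mem_pow {n : ℕ} {f : PowerSeries R}
    (hf : ∀ i < n, coeff i f ∈ (IsLocalRing.maximalIdeal R) ^ n) :
    f ∈ (IsLocalRing.maximalIdeal (PowerSeries R)) ^ n := by
  set g : PowerSeries R := ∑ i ∈ Finset.range n, C (coeff i f) * X ^ i with hg
  have hg1 : g ∈ (IsLocalRing.maximalIdeal (PowerSeries R)) ^ n := by
    refine Ideal.sum_mem _ fun i hi => ?_
    exact Ideal.mul_mem_right _ _ (C_mem_pow (hf i (Finset.mem_range.1 hi)))
  have hg2 : f - g ∈ (IsLocalRing.maximalIdeal (PowerSeries R)) ^ n := by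
    have h1 : (X : PowerSeries R) ^ n ∣ f - g := by
      rw [PowerSeries.X_pow_dvd_iff]
      intro m hm
      rw [map_sub, hg, map_sum, sub_eq_zero]
      rw [Finset.sum_congr rfl fun i _ => PowerSeries.coeff_C_mul_X_pow _ _ _,
        Finset.sum_ite_eq, if_pos (Finset.mem_range.2 hm)]
    obtain ⟨h, hh⟩ := h1
    rw [hh]
    exact Ideal.mul_mem_right _ _ (Ideal.pow_mem_pow X_mem_max n)
  have := add_mem hg2 hg1
  rwa [sub_add_cancel] at this

end max

theorem aux (p : ℕ) [Fact p.Prime] (R : Type) [CommRing R] [CharP R p]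
    [CharP (PowerSeries R) p] [IsLocalRing R] (n : ℕ) (J : Ideal R)
    (hJ : (IsLocalRing.maximalIdeal R) ^ n = J) (T : Fs p R →ₗ[R] (R ⧸ J)) (hT1 : T 1 = 1) :
    ∃ T : Fs p (PowerSeries R) →ₗ[PowerSeries R]
      (PowerSeries R ⧸ (IsLocalRing.maximalIdeal (PowerSeries R)) ^ n), T 1 = 1 := by
  set T0 : R → R ⧸ J := fun x => T (show Fs p R from x) with hT0
  have hadd : ∀ x y, T0 (x + y) = T0 x + T0 y := fun x y => T.map_add _ _
  have hpow : ∀ x y, T0 (x ^ p * y) = algebraMap R (R ⧸ J) x * T0 y := by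
    intro x y
    have h1 := T.map_smul x (show Fs p R from y)
    rw [Algebra.smul_def] at h1
    exact h1
  have hz : T0 0 = 0 := T.map_zero
  have hone : T0 1 = 1 := hT1
  set out : R ⧸ J → R := Function.surjInv Ideal.Quotient.mk_surjective with hout
  have hmk : ∀ x, Ideal.Quotient.mk J (out x) = x := fun x => Function.surjInv_eq _ x
  set F : PowerSeries R → PowerSeries R := fun f => PowerSeries.mk fun i => out (T0 (coeff (p * i) f))
    with hF
  have hFc : ∀ f i, Ideal.Quotient.mk J (coeff i (F f)) = T0 (coeff (p * i) f) := by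
    intro f i
    rw [hF]
    simp only
    rw [coeff_mk, hmk]
  refine ⟨{ toFun := fun f => Ideal.Quotient.mk _ (F (show PowerSeries R from f)),
            map_add' := ?_, map_smul' := ?_ }, ?_⟩
  · intro f g
    rw [← map_add, Ideal.Quotient.eq]
    apply mem_pow
    intro i _
    rw [hJ, ← Ideal.Quotient.eq_zero_iff_mem, map_sub, map_add, map_sub, map_add, hFc, hFc, hFc]
    change T0 (coeff (p * i) ((show PowerSeries R from f) + (show PowerSeries R from g))) - _ = 0
    rw [map_add, hadd, sub_self]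
  · intro g f
    rw [RingHom.id_apply, Algebra.smul_def, Ideal.Quotient.algebraMap_eq, ← map_mul,
      Ideal.Quotient.eq]
    apply mem_pow
    intro i _
    rw [hJ, ← Ideal.Quotient.eq_zero_iff_mem, map_sub, map_sub, hFc, coeff_mul, map_sum]
    change T0 (coeff (p * i) (g ^ p * (show PowerSeries R from f))) - _ = 0
    rw [semilin T0 hadd hpow, sub_eq_zero]
    refine Finset.sum_congr rfl fun x _ => ?_
    rw [map_mul, hFc]
    rfl
  · change Ideal.Quotient.mk _ (F (1 : PowerSeries R)) = 1
    rw [← map_one (Ideal.Quotient.mk _), Ideal.Quotient.eq]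
    apply mem_pow
    intro i _
    rw [hJ, ← Ideal.Quotient.eq_zero_iff_mem, map_sub, map_sub, hFc, coeff_one, coeff_one]
    have hp0 : p ≠ 0 := (Fact.out : p.Prime).ne_zero
    by_cases hi : i = 0
    · subst hi
      rw [if_pos (by simp), if_pos rfl, hone, map_one, sub_self]
    · rw [if_neg (by simp [hp0, hi]), if_neg hi, hz, map_zero, sub_self]

theorem t : Pool.Agent.Y198.EX.stmB := by
  intro p _ R _ _ _ _ hT n
  obtain ⟨T, hT1⟩ := hT n
  exact aux p R n _ rfl T hT1

end Pool.Agent.Y909.EX
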